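import Pool.Agent.KS6_29.OH.Main

/-!
# Product tori with one small and two large equal radii are far from volume minimizing

Let `T(r)` be the product torus in `ℂⁿ` with radii `r_1, …, r_n`, where two radii are equal to `b`
and a third one is `a`. With `C n = 2 (18 n π)ⁿ` we show that, for `b ≥ 1000 a`, some compactly
supported Hamiltonian isotopy maps `T(r)` to a torus of volume at most
`C n · (a / b)^(1/3) · vol T(r)`. So for `b > (C n)³ a` the torus is not Hamiltonian volume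
minimizing; this includes all tori `T_{a,b,k}` with `n ≥ 3`, `1 ≤ k ≤ n - 2` and `b > (C n)³ a`.
-/

set_option autoImplicit false

open Set Metric MeasureTheory
open scoped ContDiff ComplexConjugate Topology NNReal ENNReal Pointwise

noncomputable section

namespace Pool.Agent.Results.MP_5a8125_gt.LargeRadiusRatio

open Pool.Agent.KS6_29.OH

/-- the constant -/
def C (n : ℕ) : ℝ := 2 * (18 * n * Real.pi) ^ n

/-- the torus `T_{a,b,k}` of the problem -/
def T (n k : ℕ) (a b : ℝ) : Set (EuclideanSpace ℂ (Fin n)) :=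
  {z | ∀ j : Fin n, ‖z j‖ = if (j : ℕ) < k then a else b}

theorem strict {n : ℕ} {i : Fin 3 → Fin n} (hi : Function.Injective i) {r : Fin n → ℝ}
    (hr : ∀ j, 0 < r j) (h12 : r (i 2) = r (i 1)) (hb : C n ^ 3 * r (i 0) < r (i 1)) :
    ∃ (H : ℝ → EuclideanSpace ℂ (Fin n) → ℝ)
      (φ : ℝ → EuclideanSpace ℂ (Fin n) → EuclideanSpace ℂ (Fin n)), IsHamIsotopy H φ ∧
      μH[(n : ℝ)] (φ 1 '' torus r) < μH[(n : ℝ)] (torus r) := by
  have hn : 3 ≤ n := by
    have := Fintype.card_le_of_injective i hi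
    simpa using this
  have hn' : (3 : ℝ) ≤ n := by exact_mod_cast hn
  have h0 := hr (i 0)
  have h1 := hr (i 1)
  have hC : 10 ≤ C n := by
    have h5 : (10 : ℝ) ≤ 18 * n * Real.pi := by nlinarith [Real.pi_gt_three]
    have h6 : (18 * n * Real.pi) ^ 1 ≤ (18 * n * Real.pi) ^ n :=
      pow_le_pow_right₀ (by linarith) (by omega)
    unfold C
    linarith
  have hC0 : 0 < C n := by linarith
  have hC3 : (1000 : ℝ) ≤ C n ^ 3 := by
    calc (1000 : ℝ) = 10 ^ 3 := by norm_num
      _ ≤ C n ^ 3 := by gcongr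
  obtain ⟨H, φ, h2, h3⟩ := main hi hr h12 (by nlinarith)
  refine ⟨H, φ, h2, h3.trans_lt (lt_of_lt_of_le ?_ (torus_lower fun j => (hr j).le))⟩
  have hp : 0 < ∏ j, (2 * r j) := Finset.prod_pos fun j _ => by have := hr j; positivity
  rw [ENNReal.ofReal_lt_ofReal_iff hp]
  have h4 : C n * (r (i 0) / r (i 1)) ^ ((1 : ℝ) / 3) < 1 := by
    by_contra h
    push Not at h
    have h5 : 1 ≤ (C n * (r (i 0) / r (i 1)) ^ ((1 : ℝ) / 3)) ^ 3 := one_le_pow₀ h
    have h6 : ((r (i 0) / r (i 1)) ^ ((1 : ℝ) / 3)) ^ 3 = r (i 0) / r (i 1) := by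
      rw [← Real.rpow_natCast, ← Real.rpow_mul (by positivity)]
      norm_num
    rw [mul_pow, h6, ← mul_div_assoc, le_div_iff₀ h1] at h5
    linarith
  unfold C at h4
  calc _ < 1 * ∏ j, (2 * r j) := mul_lt_mul_of_pos_right h4 hp
    _ = _ := one_mul _

/-- **Tori with a large ratio of radii.** With `C n = 2 (18 n π)ⁿ`:
(i) if `r` has a radius `r (i 0)` and two equal radii `r (i 1) = r (i 2) ≥ 1000 r (i 0)`, then some
compactly supported Hamiltonian isotopy multiplies the volume of the product torus by at most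
`C n · (r (i 0) / r (i 1))^(1/3)`;
(ii) if `r (i 1) > (C n)³ r (i 0)`, it strictly decreases the volume;
(iii) in particular for `n ≥ 3`, `1 ≤ k ≤ n - 2`, `b > (C n)³ a` the torus `T_{a,b,k}` is not
Hamiltonian volume minimizing. -/
theorem result :
    (∀ (n : ℕ) (i : Fin 3 → Fin n) (r : Fin n → ℝ), Function.Injective i → (∀ j, 0 < r j) →
      r (i 2) = r (i 1) → 1000 * r (i 0) ≤ r (i 1) →
      ∃ (H : ℝ → EuclideanSpace ℂ (Fin n) → ℝ)
        (φ : ℝ → EuclideanSpace ℂ (Fin n) → EuclideanSpace ℂ (Fin n)), IsHamIsotopy H φ ∧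
        μH[(n : ℝ)] (φ 1 '' torus r) ≤
          ENNReal.ofReal (C n * (r (i 0) / r (i 1)) ^ ((1 : ℝ) / 3)) * μH[(n : ℝ)] (torus r)) ∧
    (∀ (n : ℕ) (i : Fin 3 → Fin n) (r : Fin n → ℝ), Function.Injective i → (∀ j, 0 < r j) →
      r (i 2) = r (i 1) → C n ^ 3 * r (i 0) < r (i 1) →
      ∃ (H : ℝ → EuclideanSpace ℂ (Fin n) → ℝ)
        (φ : ℝ → EuclideanSpace ℂ (Fin n) → EuclideanSpace ℂ (Fin n)), IsHamIsotopy H φ ∧
        μH[(n : ℝ)] (φ 1 '' torus r) < μH[(n : ℝ)] (torus r)) ∧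
    ∀ (n k : ℕ) (a b : ℝ), 1 ≤ k → k + 2 ≤ n → 0 < a → C n ^ 3 * a < b →
      ∃ (H : ℝ → EuclideanSpace ℂ (Fin n) → ℝ)
        (φ : ℝ → EuclideanSpace ℂ (Fin n) → EuclideanSpace ℂ (Fin n)), IsHamIsotopy H φ ∧
        μH[(n : ℝ)] (φ 1 '' T n k a b) < μH[(n : ℝ)] (T n k a b) := by
  refine ⟨fun n i r hi hr h12 hb => ?_, fun n i r hi hr h12 hb => strict hi hr h12 hb,
    fun n k a b hk hkn ha hb => ?_⟩
  · obtain ⟨H, φ, h2, h3⟩ := main hi hr h12 hb
    refine ⟨H, φ, h2, h3.trans ?_⟩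
    have h0 := hr (i 0)
    have h1 := hr (i 1)
    have hpi := Real.pi_pos
    rw [ENNReal.ofReal_mul (by positivity)]
    exact mul_le_mul_right (torus_lower fun j => (hr j).le) _
  · have hC0 : 0 ≤ C n ^ 3 := by
      have hpi := Real.pi_pos
      unfold C
      positivity
    have hb0 : 0 < b := lt_of_le_of_lt (by positivity) hb
    let i : Fin 3 → Fin n := ![⟨0, by omega⟩, ⟨k, by omega⟩, ⟨k + 1, by omega⟩]
    have hi : Function.Injective i := by
      intro x y hxy
      fin_cases x <;> fin_cases y <;> simp [i] at hxy ⊢ <;> omega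
    have e0 : ((i 0 : Fin n) : ℕ) < k := by show 0 < k; omega
    have e1 : ¬ ((i 1 : Fin n) : ℕ) < k := by show ¬ k < k; omega
    have e2 : ¬ ((i 2 : Fin n) : ℕ) < k := by show ¬ k + 1 < k; omega
    have := strict (r := fun j : Fin n => if (j : ℕ) < k then a else b) hi
      (fun j => by show 0 < (if (j : ℕ) < k then a else b); split_ifs <;> assumption)
      (by
        show (if ((i 2 : Fin n) : ℕ) < k then a else b) = (if ((i 1 : Fin n) : ℕ) < k then a else b)
        rw [if_neg e2, if_neg e1])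
      (by
        show C n ^ 3 * (if ((i 0 : Fin n) : ℕ) < k then a else b) <
          (if ((i 1 : Fin n) : ℕ) < k then a else b)
        rw [if_pos e0, if_neg e1]
        exact hb)
    exact this

end Pool.Agent.Results.MP_5a8125_gt.LargeRadiusRatio
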